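import Pool.Agent.helper61.Tight.T1

set_option linter.all false

/-!
# MP_ce98d8_co, mod:T2 (few paths of length three) and mod:T3a (no subdivided `K₇₇`)
-/

namespace Pool.Agent.helper11.Tight

open Finset

variable {V : Type*} [Fintype V] [DecidableEq V]

/-! ### numerics -/

theorem t2_s18 {A s c d M β : ℕ} (h : Par A s c d M β) : 18 ≤ s := by
  by_contra hs
  have hs' : s ≤ 17 := by omega
  have h1 := h.hs
  have h2 := h.hA
  rw [h.hc] at h1
  have h3 : 1000 * 11 * (s + 1) ≤ 2 ^ s := by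
    refine le_trans ?_ h1
    gcongr
    omega
  interval_cases s <;> omega

theorem t2_c18 {A s c d M β : ℕ} (h : Par A s c d M β) : 2 ^ 18 ≤ c := by
  rw [h.hc]
  exact Nat.pow_le_pow_right (by norm_num) (t2_s18 h)

theorem t2_cd {A s c d M β : ℕ} (h : Par A s c d M β) : c ≤ d := by
  rw [h.hd]
  have := t2_c18 h
  have hA := h.hA
  exact Nat.le_self_pow (by omega) c

theorem t2_M {A s c d M β : ℕ} (h : Par A s c d M β) : M = d ^ 3 * c := by
  rw [h.hM, h.hd, ← pow_mul, ← pow_succ]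
  ring_nf

theorem t2_two {A s c d M β : ℕ} (h : Par A s c d M β) : 2 ≤ d := by
  have := t2_c18 h
  have := t2_cd h
  omega

theorem t2_32 {A s c d M β : ℕ} (h : Par A s c d M β) : 32 * d ^ 3 ≤ M := by
  rw [t2_M h, mul_comm]
  apply Nat.mul_le_mul_left
  have := t2_c18 h
  omega

theorem t2_cMd {A s c d M β : ℕ} (h : Par A s c d M β) : c ≤ M * d := by
  have h0 := t2_c18 h
  have h1 := t2_two h
  rw [t2_M h]
  calc c = 1 * c * 1 := by ring
    _ ≤ d ^ 3 * c * d := by
        gcongr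
        · exact Nat.one_le_pow _ _ (by omega)
        · omega

/-! ### mod:T2 -/

/-- the edges of the paths `u a_k b_k v` -/
def t2_g {m : ℕ} (z : V × V × (Fin m → V × V)) : Fin m ⊕ (Fin m ⊕ Fin m) → Sym2 V :=
  Sum.elim (fun k => s(z.1, (z.2.2 k).1))
    (Sum.elim (fun k => s((z.2.2 k).1, (z.2.2 k).2)) (fun k => s((z.2.2 k).2, z.2.1)))

theorem t2_inj {H : SimpleGraph V} {d m : ℕ} (hH : Base H d) {u v : V} (huv : u ≠ v)
    (f : Fin m → V × V) (hf : Function.Injective f) (hP : ∀ k, f k ∈ P3 H u v) :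
    Function.Injective (t2_g (u, v, f)) := by
  have hua : ∀ k, H.Adj u (f k).1 := fun k => (mem_P3.1 (hP k)).1
  have hab : ∀ k, H.Adj (f k).1 (f k).2 := fun k => (mem_P3.1 (hP k)).2.1
  have hbv : ∀ k, H.Adj (f k).2 v := fun k => (mem_P3.1 (hP k)).2.2.1
  have hav : ∀ k, (f k).1 ≠ v := fun k => (mem_P3.1 (hP k)).2.2.2.1
  have hbu : ∀ k, (f k).2 ≠ u := fun k => (mem_P3.1 (hP k)).2.2.2.2
  have ha : ∀ k l, (f k).1 = (f l).1 → k = l := by
    intro k l h
    apply hf
    refine Prod.ext h ?_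
    refine hH.c4 (f k).1 v (f k).2 (f l).2 (hav k) (hab k) (hbv k).symm ?_ (hbv l).symm
    rw [h]
    exact hab l
  have hb : ∀ k l, (f k).2 = (f l).2 → k = l := by
    intro k l h
    apply hf
    refine Prod.ext ?_ h
    refine hH.c4 (f k).2 u (f k).1 (f l).1 (hbu k) (hab k).symm (hua k) ?_ (hua l)
    rw [h]
    exact (hab l).symm
  have hne : ∀ k l, (f k).1 ≠ (f l).2 := by
    intro k l h
    refine hH.tri u (f l).1 (f l).2 (hua l) (hab l) ?_
    rw [← h]
    exact hua k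
  rintro (k | k | k) (l | l | l) h
  · simp only [t2_g, Sum.elim_inl, Sym2.eq_iff] at h
    rcases h with ⟨_, h⟩ | ⟨h, _⟩
    · rw [ha k l h]
    · exact absurd h (hua l).ne
  · simp only [t2_g, Sum.elim_inl, Sum.elim_inr, Sym2.eq_iff] at h
    rcases h with ⟨h, _⟩ | ⟨h, _⟩
    · exact absurd h (hua l).ne
    · exact absurd h.symm (hbu l)
  · simp only [t2_g, Sum.elim_inl, Sum.elim_inr, Sym2.eq_iff] at h
    rcases h with ⟨h, _⟩ | ⟨h, _⟩
    · exact absurd h.symm (hbu l)
    · exact absurd h huv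
  · simp only [t2_g, Sum.elim_inl, Sum.elim_inr, Sym2.eq_iff] at h
    rcases h with ⟨h, _⟩ | ⟨_, h⟩
    · exact absurd h.symm (hua k).ne
    · exact absurd h (hbu k)
  · simp only [t2_g, Sum.elim_inl, Sum.elim_inr, Sym2.eq_iff] at h
    rcases h with ⟨h, _⟩ | ⟨h, _⟩
    · rw [ha k l h]
    · exact absurd h (hne k l)
  · simp only [t2_g, Sum.elim_inl, Sum.elim_inr, Sym2.eq_iff] at h
    rcases h with ⟨h, _⟩ | ⟨h, _⟩
    · exact absurd h (hne k l)
    · exact absurd h (hav k)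
  · simp only [t2_g, Sum.elim_inl, Sum.elim_inr, Sym2.eq_iff] at h
    rcases h with ⟨h, _⟩ | ⟨_, h⟩
    · exact absurd h (hbu k)
    · exact absurd h.symm huv
  · simp only [t2_g, Sum.elim_inl, Sum.elim_inr, Sym2.eq_iff] at h
    rcases h with ⟨h, _⟩ | ⟨_, h⟩
    · exact absurd h.symm (hne l k)
    · exact absurd h.symm (hav l)
  · simp only [t2_g, Sum.elim_inl, Sum.elim_inr, Sym2.eq_iff] at h
    rcases h with ⟨h, _⟩ | ⟨h, _⟩
    · rw [hb k l h]
    · exact absurd h (hbv k).ne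

theorem bad_p3 {A s c d M β : ℕ} (h : Par A s c d M β) :
    10 * num M d (fun H => ¬ FewP3 H (8 * A + 8)) ≤ (fam M d).card := by
  classical
  set m := 8 * A + 9 with hm
  set S : Finset (Fin M × Fin M × (Fin m → Fin M × Fin M)) :=
    Finset.univ.filter (fun z => Function.Injective (t2_g z)) with hS
  set E : Fin M × Fin M × (Fin m → Fin M × Fin M) → Finset (Sym2 (Fin M)) :=
    fun z => Finset.univ.image (t2_g z) with hE
  have hc18 := t2_c18 h
  have hd2 := t2_two h
  have fm := first_moment (M := M) (d := d) S E (3 * m)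
    (by
      intro z hz
      rw [hS, Finset.mem_filter] at hz
      rw [hE]
      simp only
      rw [Finset.card_image_of_injective _ hz.2]
      simp
      ring) hd2 (t2_32 h)
    (by
      have h1 := t2_cMd h
      have h2 := h.hs
      have h3 : 1000 * (A + 1) * 1 ≤ 1000 * (A + 1) * (s + 1) := by
        apply Nat.mul_le_mul_left
        omega
      omega)
  have mono : num M d (fun H => ¬ FewP3 H (8 * A + 8)) ≤
      num M d (fun H => ∃ z ∈ S, ∀ e ∈ E z, e ∈ H.edgeSet) := by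
    apply num_mono
    intro H hH hF
    unfold FewP3 at hF
    push Not at hF
    obtain ⟨u, v, huv, hcard⟩ := hF
    have hcard' : m ≤ (P3 H u v).card := by omega
    obtain ⟨T, hT, hTc⟩ := Finset.exists_subset_card_eq hcard'
    let eqv := T.equivFin
    rw [hTc] at eqv
    let f : Fin m → Fin M × Fin M := fun k => (eqv.symm k : Fin M × Fin M)
    have hfinj : Function.Injective f := fun k l hkl =>
      eqv.symm.injective (Subtype.ext hkl)
    have hfP : ∀ k, f k ∈ P3 H u v := fun k => hT (eqv.symm k).2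
    refine ⟨(u, v, f), ?_, ?_⟩
    · rw [hS, Finset.mem_filter]
      exact ⟨Finset.mem_univ _, t2_inj hH huv f hfinj hfP⟩
    · intro e he
      rw [hE] at he
      simp only [Finset.mem_image, Finset.mem_univ, true_and] at he
      obtain ⟨k, rfl⟩ := he
      rcases k with k | k | k
      · exact (mem_P3.1 (hfP k)).1
      · exact (mem_P3.1 (hfP k)).2.1
      · exact (mem_P3.1 (hfP k)).2.2.1
  have hScard : S.card ≤ M ^ (2 + 2 * m) := by
    refine le_trans (Finset.card_filter_le _ _) ?_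
    rw [Finset.card_univ, Fintype.card_prod, Fintype.card_prod, Fintype.card_fun,
      Fintype.card_prod, Fintype.card_fin, Fintype.card_fin]
    apply le_of_eq
    ring
  set N := num M d (fun H => ¬ FewP3 H (8 * A + 8)) with hN
  set F := (fam M d).card with hF
  have hMeq := t2_M h
  have hMpos : 0 < M := by
    rw [hMeq]; positivity
  have step1 : N * c ^ m ≤ M ^ 2 * 8 ^ m * F := by
    have hpos : 0 < M ^ (3 * m) := by positivity
    apply Nat.le_of_mul_le_mul_right _ hpos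
    calc N * c ^ m * M ^ (3 * m) ≤ (num M d (fun H => ∃ z ∈ S, ∀ e ∈ E z, e ∈ H.edgeSet) *
          M ^ (3 * m)) * c ^ m := by
          calc N * c ^ m * M ^ (3 * m) = (N * M ^ (3 * m)) * c ^ m := by ring
            _ ≤ _ := by gcongr
      _ ≤ (S.card * (2 * d) ^ (3 * m) * F) * c ^ m := Nat.mul_le_mul_right _ fm
      _ ≤ (M ^ (2 + 2 * m) * (2 * d) ^ (3 * m) * F) * c ^ m := by gcongr
      _ = M ^ 2 * 8 ^ m * F * (M ^ (2 * m) * (d ^ 3 * c) ^ m) := by
          rw [mul_pow, mul_pow, pow_mul 2 3 m, pow_mul d 3 m, pow_add]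
          norm_num
          ring
      _ = M ^ 2 * 8 ^ m * F * M ^ (3 * m) := by
          rw [← hMeq]
          ring
  have step2 : 10 * (M ^ 2 * 8 ^ m) ≤ c ^ m := by
    have e1 : M ^ 2 = c ^ (6 * A + 2) := by
      rw [h.hM]; ring
    have e2 : c ^ m = c ^ (6 * A + 2) * c ^ (2 * A + 7) := by
      rw [← pow_add]; congr 1; omega
    have e3 : 10 * 8 ^ m ≤ c ^ (2 * A + 7) := by
      calc 10 * 8 ^ m ≤ 2 ^ 4 * 8 ^ m := by gcongr; norm_num
        _ = 2 ^ (24 * A + 31) := by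
            rw [show (8 : ℕ) = 2 ^ 3 by norm_num, ← pow_mul, ← pow_add]
            congr 1
            omega
        _ ≤ 2 ^ (18 * (2 * A + 7)) := Nat.pow_le_pow_right (by norm_num) (by omega)
        _ = (2 ^ 18) ^ (2 * A + 7) := by rw [pow_mul]
        _ ≤ c ^ (2 * A + 7) := Nat.pow_le_pow_left hc18 _
    calc 10 * (M ^ 2 * 8 ^ m) = M ^ 2 * (10 * 8 ^ m) := by ring
      _ ≤ M ^ 2 * c ^ (2 * A + 7) := Nat.mul_le_mul_left _ e3
      _ = c ^ m := by rw [e1, e2]
  have hpos2 : 0 < M ^ 2 * 8 ^ m := by positivity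
  apply Nat.le_of_mul_le_mul_right _ hpos2
  calc 10 * N * (M ^ 2 * 8 ^ m) = N * (10 * (M ^ 2 * 8 ^ m)) := by ring
    _ ≤ N * c ^ m := Nat.mul_le_mul_left _ step2
    _ ≤ M ^ 2 * 8 ^ m * F := step1
    _ = F * (M ^ 2 * 8 ^ m) := by ring

/-! ### mod:T3a -/

/-- the edges of the subdivided `K₇₇` -/
def t3_g (z : (Fin 7 → V) × (Fin 7 → V) × (Fin 7 × Fin 7 → V)) :
    (Fin 7 × Fin 7) ⊕ (Fin 7 × Fin 7) → Sym2 V :=
  Sum.elim (fun p => s(z.1 p.1, z.2.2 p)) (fun p => s(z.2.1 p.2, z.2.2 p))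

theorem t3_inj (a b : Fin 7 → V) (w : Fin 7 × Fin 7 → V) (hw : Function.Injective w)
    (hab : ∀ i j, a i ≠ b j) (haw : ∀ i p, a i ≠ w p) (hbw : ∀ j p, b j ≠ w p) :
    Function.Injective (t3_g (a, b, w)) := by
  rintro (p | p) (q | q) h
  · simp only [t3_g, Sum.elim_inl, Sym2.eq_iff] at h
    rcases h with ⟨_, h⟩ | ⟨h, _⟩
    · rw [hw h]
    · exact absurd h (haw _ _)
  · simp only [t3_g, Sum.elim_inl, Sum.elim_inr, Sym2.eq_iff] at h
    rcases h with ⟨h, _⟩ | ⟨h, _⟩
    · exact absurd h (hab _ _)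
    · exact absurd h (haw _ _)
  · simp only [t3_g, Sum.elim_inl, Sum.elim_inr, Sym2.eq_iff] at h
    rcases h with ⟨h, _⟩ | ⟨h, _⟩
    · exact absurd h.symm (hab _ _)
    · exact absurd h (hbw _ _)
  · simp only [t3_g, Sum.elim_inr, Sym2.eq_iff] at h
    rcases h with ⟨_, h⟩ | ⟨h, _⟩
    · rw [hw h]
    · exact absurd h (hbw _ _)

theorem bad_sub77 {A s c d M β : ℕ} (h : Par A s c d M β) :
    10 * num M d (fun H => Sub77 H) ≤ (fam M d).card := by
  classical
  set S : Finset ((Fin 7 → Fin M) × (Fin 7 → Fin M) × (Fin 7 × Fin 7 → Fin M)) :=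
    Finset.univ.filter (fun z => Function.Injective (t3_g z)) with hS
  set E : (Fin 7 → Fin M) × (Fin 7 → Fin M) × (Fin 7 × Fin 7 → Fin M) →
      Finset (Sym2 (Fin M)) := fun z => Finset.univ.image (t3_g z) with hE
  have hc18 := t2_c18 h
  have hd2 := t2_two h
  have fm := first_moment (M := M) (d := d) S E 98
    (by
      intro z hz
      rw [hS, Finset.mem_filter] at hz
      rw [hE]
      simp only
      rw [Finset.card_image_of_injective _ hz.2]
      simp) hd2 (t2_32 h)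
    (by
      have h1 := t2_cMd h
      omega)
  have mono : num M d (fun H => Sub77 H) ≤
      num M d (fun H => ∃ z ∈ S, ∀ e ∈ E z, e ∈ H.edgeSet) := by
    apply num_mono
    rintro H hH ⟨a, b, w, ha, hb, hw, hab, haw, hbw, hadj⟩
    refine ⟨(a, b, w), ?_, ?_⟩
    · rw [hS, Finset.mem_filter]
      exact ⟨Finset.mem_univ _, t3_inj a b w hw hab haw hbw⟩
    · intro e he
      rw [hE] at he
      simp only [Finset.mem_image, Finset.mem_univ, true_and] at he
      obtain ⟨k, rfl⟩ := he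
      rcases k with p | p
      · exact (hadj p.1 p.2).1
      · exact (hadj p.1 p.2).2
  have hScard : S.card ≤ M ^ 63 := by
    refine le_trans (Finset.card_filter_le _ _) ?_
    rw [Finset.card_univ, Fintype.card_prod, Fintype.card_prod, Fintype.card_fun,
      Fintype.card_fun, Fintype.card_prod, Fintype.card_fin, Fintype.card_fin]
    apply le_of_eq
    ring
  set N := num M d (fun H => Sub77 H) with hN
  set F := (fam M d).card with hF
  have hMeq := t2_M h
  have hMpos : 0 < M := by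
    rw [hMeq]; positivity
  have step1 : N * c ^ 35 ≤ 2 ^ 98 * F := by
    have hpos : 0 < M ^ 63 * d ^ 105 := by positivity
    apply Nat.le_of_mul_le_mul_right _ hpos
    calc N * c ^ 35 * (M ^ 63 * d ^ 105) = N * (M ^ 63 * (d ^ 3 * c) ^ 35) := by ring
      _ = N * M ^ 98 := by rw [← hMeq]; ring
      _ ≤ (num M d (fun H => ∃ z ∈ S, ∀ e ∈ E z, e ∈ H.edgeSet)) * M ^ 98 := by gcongr
      _ ≤ S.card * (2 * d) ^ 98 * F := fm
      _ ≤ M ^ 63 * (2 * d) ^ 98 * F := by gcongr
      _ = 2 ^ 98 * F * (M ^ 63 * d ^ 98) := by ring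
      _ ≤ 2 ^ 98 * F * (M ^ 63 * d ^ 105) := by
          gcongr
          · omega
          · norm_num
  have step2 : 10 * 2 ^ 98 ≤ c ^ 35 := by
    calc 10 * 2 ^ 98 ≤ (2 ^ 18) ^ 35 := by norm_num
      _ ≤ c ^ 35 := Nat.pow_le_pow_left hc18 _
  have hpos2 : 0 < 2 ^ 98 := by positivity
  apply Nat.le_of_mul_le_mul_right _ hpos2
  calc 10 * N * 2 ^ 98 = N * (10 * 2 ^ 98) := by ring
    _ ≤ N * c ^ 35 := Nat.mul_le_mul_left _ step2
    _ ≤ 2 ^ 98 * F := step1
    _ = F * 2 ^ 98 := by ring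

end Pool.Agent.helper11.Tight
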