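import Pool.Agent.helper74.Tight.T0

set_option linter.all false

/-!
# MP_ce98d8_co, mod:T1: first moment of prescribed edge sets
-/

namespace Pool.Agent.helper11.Tight

open Finset

variable {V : Type*} [Fintype V] [DecidableEq V]

/-! ### the good pairs -/

open Classical in
theorem t1_card_adj {M d : ℕ} {H : SimpleGraph (Fin M)} (hH : Base H d) :
    (Finset.univ.filter (fun p : Fin M × Fin M => H.Adj p.1 p.2)).card = M * d := by
  rw [← Finset.univ_product_univ, Finset.card_filter, Finset.sum_product]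
  have h : ∀ b : Fin M, ∑ y : Fin M, (if H.Adj b y then 1 else 0) = d := by
    intro b
    rw [← Finset.card_filter]
    exact hH.reg b
  simp only [h]
  simp

open Classical in
/-- the pairs used for switching away the edge `a x` -/
noncomputable def t1_good {M : ℕ} (H : SimpleGraph (Fin M)) (a x : Fin M)
    (E0 : Finset (Sym2 (Fin M))) : Finset (Fin M × Fin M) :=
  Finset.univ.filter (fun p => H.Adj p.1 p.2 ∧ ¬ Near H a p.1 ∧ ¬ Near H x p.2 ∧
    s(p.1, p.2) ∉ E0)

theorem t1_good_card {M d : ℕ} {H : SimpleGraph (Fin M)} (hH : Base H d) (hd : 2 ≤ d)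
    (a x : Fin M) (E0 : Finset (Sym2 (Fin M))) (hM : 32 * d ^ 3 ≤ M)
    (hm : 8 * (E0.card + 1) ≤ M * d) :
    M * d ≤ 2 * (t1_good H a x E0).card := by
  classical
  set B1 : Finset (Fin M × Fin M) :=
    (Finset.univ.filter (fun b => Near H a b)).biUnion
      (fun b => (nb H b).image (fun y => (b, y))) with hB1
  set B2 : Finset (Fin M × Fin M) :=
    (Finset.univ.filter (fun y => Near H x y)).biUnion
      (fun y => (nb H y).image (fun b => (b, y))) with hB2
  set B3 : Finset (Fin M × Fin M) :=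
    E0.biUnion (fun e => Finset.univ.filter (fun p : Fin M × Fin M => s(p.1, p.2) = e)) with hB3
  have hsub : Finset.univ.filter (fun p : Fin M × Fin M => H.Adj p.1 p.2) ⊆
      t1_good H a x E0 ∪ (B1 ∪ (B2 ∪ B3)) := by
    rintro ⟨b, y⟩ hp
    simp only [Finset.mem_filter, Finset.mem_univ, true_and] at hp
    simp only [Finset.mem_union]
    by_cases h1 : Near H a b
    · right; left
      rw [hB1, Finset.mem_biUnion]
      refine ⟨b, by simpa using h1, ?_⟩
      rw [Finset.mem_image]
      exact ⟨y, by simpa using hp, rfl⟩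
    by_cases h2 : Near H x y
    · right; right; left
      rw [hB2, Finset.mem_biUnion]
      refine ⟨y, by simpa using h2, ?_⟩
      rw [Finset.mem_image]
      exact ⟨b, by simpa using hp.symm, rfl⟩
    by_cases h3 : s(b, y) ∈ E0
    · right; right; right
      rw [hB3, Finset.mem_biUnion]
      exact ⟨s(b, y), h3, by simp⟩
    left
    simp only [t1_good, Finset.mem_filter, Finset.mem_univ, true_and]
    exact ⟨hp, h1, h2, h3⟩
  have c1 : B1.card ≤ 2 * d ^ 3 * d := by
    rw [hB1]
    refine le_trans (Finset.card_biUnion_le) ?_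
    refine le_trans (Finset.sum_le_card_nsmul _ _ d ?_) ?_
    · intro b _
      exact le_trans Finset.card_image_le (le_of_eq (hH.reg b))
    · rw [smul_eq_mul]
      exact Nat.mul_le_mul_right _ (near_card hH hd a)
  have c2 : B2.card ≤ 2 * d ^ 3 * d := by
    rw [hB2]
    refine le_trans (Finset.card_biUnion_le) ?_
    refine le_trans (Finset.sum_le_card_nsmul _ _ d ?_) ?_
    · intro b _
      exact le_trans Finset.card_image_le (le_of_eq (hH.reg b))
    · rw [smul_eq_mul]
      exact Nat.mul_le_mul_right _ (near_card hH hd x)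
  have c3 : B3.card ≤ E0.card * 2 := by
    rw [hB3]
    refine le_trans (Finset.card_biUnion_le) ?_
    refine le_trans (Finset.sum_le_card_nsmul _ _ 2 ?_) ?_
    · intro e _
      induction e using Sym2.ind with
      | _ u v =>
        have : Finset.univ.filter (fun p : Fin M × Fin M => s(p.1, p.2) = s(u, v)) ⊆
            {(u, v), (v, u)} := by
          rintro ⟨p, q⟩ hp
          simp only [Finset.mem_filter, Finset.mem_univ, true_and, Sym2.eq_iff] at hp
          simp only [Finset.mem_insert, Finset.mem_singleton, Prod.mk.injEq]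
          exact hp
        exact le_trans (Finset.card_le_card this) (Finset.card_le_two)
    · rw [smul_eq_mul]
  have hall := Finset.card_le_card hsub
  rw [t1_card_adj hH] at hall
  have u1 := Finset.card_union_le (t1_good H a x E0) (B1 ∪ (B2 ∪ B3))
  have u2 := Finset.card_union_le B1 (B2 ∪ B3)
  have u3 := Finset.card_union_le B2 B3
  have hd3 : 32 * (d ^ 3 * d) ≤ M * d := by
    rw [← mul_assoc]
    exact Nat.mul_le_mul_right _ hM
  have e1 : 2 * d ^ 3 * d = 2 * (d ^ 3 * d) := by ring
  rw [e1] at c1 c2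
  omega

/-- switching step for prescribed edges -/
theorem t1_step {M d : ℕ} (hd : 2 ≤ d) (hM : 32 * d ^ 3 ≤ M) (E0 : Finset (Sym2 (Fin M)))
    (e : Sym2 (Fin M)) (he : e ∉ E0) (hm : 8 * (E0.card + 1) ≤ M * d) :
    num M d (fun H => ∀ f ∈ insert e E0, f ∈ H.edgeSet) * M ≤
      2 * d * num M d (fun H => ∀ f ∈ E0, f ∈ H.edgeSet) := by
  classical
  induction e using Sym2.ind with
  | _ a x =>
  set F1 := (fam M d).filter (fun H => ∀ f ∈ insert s(a, x) E0, f ∈ H.edgeSet) with hF1
  set F0 := (fam M d).filter (fun H => ∀ f ∈ E0, f ∈ H.edgeSet) with hF0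
  have n1 : num M d (fun H => ∀ f ∈ insert s(a, x) E0, f ∈ H.edgeSet) = F1.card := by
    unfold num
    rw [hF1]
    congr
  have n0 : num M d (fun H => ∀ f ∈ E0, f ∈ H.edgeSet) = F0.card := by
    unfold num
    rw [hF0]
    congr
  rw [n1, n0]
  have key : (F1.sigma (fun H => t1_good H a x E0)).card ≤
      (F0.sigma (fun H => nb H a ×ˢ nb H x)).card := by
    apply Finset.card_le_card_of_injOn
      (fun z : (Σ _ : SimpleGraph (Fin M), Fin M × Fin M) =>
        (⟨sw z.1 a x z.2.1 z.2.2, z.2⟩ : (Σ _ : SimpleGraph (Fin M), Fin M × Fin M)))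
    · rintro ⟨H, b, y⟩ hz
      simp only [Finset.coe_sigma, Set.mem_sigma_iff, Finset.mem_coe, hF1, t1_good,
        Finset.mem_filter, mem_fam, Finset.mem_univ, true_and] at hz
      obtain ⟨⟨hB, hE⟩, hby, hab, hxy, hnot⟩ := hz
      have hax : H.Adj a x := by
        have := hE s(a, x) (Finset.mem_insert_self _ _)
        simpa using this
      have hadj := sw_adj hax hby hab hxy
      simp only [Finset.coe_sigma, Set.mem_sigma_iff, Finset.mem_coe, hF0,
        Finset.mem_filter, mem_fam, Finset.mem_product, mem_nb]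
      refine ⟨⟨sw_base hB hax hby hab hxy, ?_⟩, ?_, ?_⟩
      · intro f hf
        rw [sw_edgeSet hax hby hab hxy]
        left
        refine ⟨hE f (Finset.mem_insert_of_mem hf), ?_⟩
        rintro (h | h)
        · exact he (h ▸ hf)
        · exact hnot (h ▸ hf)
      · exact (hadj a b).2 (Or.inr (Or.inl rfl))
      · exact (hadj x y).2 (Or.inr (Or.inr rfl))
    · rintro ⟨H, b, y⟩ hz ⟨H', b', y'⟩ hz' heq
      simp only [Finset.coe_sigma, Set.mem_sigma_iff, Finset.mem_coe, hF1, t1_good,
        Finset.mem_filter, mem_fam, Finset.mem_univ, true_and] at hz hz'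
      obtain ⟨⟨hB, hE⟩, hby, hab, hxy, hnot⟩ := hz
      obtain ⟨⟨hB', hE'⟩, hby', hab', hxy', hnot'⟩ := hz'
      have hax : H.Adj a x := by
        have := hE s(a, x) (Finset.mem_insert_self _ _)
        simpa using this
      have hax' : H'.Adj a x := by
        have := hE' s(a, x) (Finset.mem_insert_self _ _)
        simpa using this
      simp only [Sigma.mk.injEq, heq_eq_eq, Prod.mk.injEq] at heq
      obtain ⟨h1, rfl, rfl⟩ := heq
      have r1 := sw_sw hax hby hab hxy
      have r2 := sw_sw hax' hby' hab' hxy'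
      rw [h1] at r1
      rw [r1] at r2
      subst r2
      rfl
  rw [Finset.card_sigma, Finset.card_sigma] at key
  have low : F1.card * (M * d) ≤ ∑ H ∈ F1, 2 * (t1_good H a x E0).card := by
    rw [← smul_eq_mul]
    apply Finset.card_nsmul_le_sum
    intro H hH
    rw [hF1, Finset.mem_filter, mem_fam] at hH
    exact t1_good_card hH.1 hd a x E0 hM hm
  rw [← Finset.mul_sum] at low
  have upp : ∑ H ∈ F0, (nb H a ×ˢ nb H x).card ≤ F0.card * (d * d) := by
    rw [← smul_eq_mul]
    apply Finset.sum_le_card_nsmul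
    intro H hH
    rw [hF0, Finset.mem_filter, mem_fam] at hH
    rw [Finset.card_product, hH.1.reg, hH.1.reg]
  have tot : F1.card * M * d ≤ 2 * d * F0.card * d := by
    calc F1.card * M * d = F1.card * (M * d) := by ring
      _ ≤ 2 * ∑ H ∈ F1, (t1_good H a x E0).card := low
      _ ≤ 2 * ∑ H ∈ F0, (nb H a ×ˢ nb H x).card := Nat.mul_le_mul_left _ key
      _ ≤ 2 * (F0.card * (d * d)) := Nat.mul_le_mul_left _ upp
      _ = 2 * d * F0.card * d := by ring
  exact Nat.le_of_mul_le_mul_right tot (by omega)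

theorem t1_single {M d : ℕ} (hd : 2 ≤ d) (hM : 32 * d ^ 3 ≤ M) (E : Finset (Sym2 (Fin M)))
    (hm : 8 * E.card ≤ M * d) :
    num M d (fun H => ∀ f ∈ E, f ∈ H.edgeSet) * M ^ E.card ≤
      (2 * d) ^ E.card * (fam M d).card := by
  classical
  induction E using Finset.induction_on with
  | empty =>
    simp only [Finset.card_empty, pow_zero, mul_one, one_mul]
    exact num_le_card _
  | insert e E0 he ih =>
    rw [Finset.card_insert_of_notMem he] at hm ⊢
    have ih' := ih (by omega)
    have st := t1_step hd hM E0 e he hm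
    calc num M d (fun H => ∀ f ∈ insert e E0, f ∈ H.edgeSet) * M ^ (E0.card + 1)
        = (num M d (fun H => ∀ f ∈ insert e E0, f ∈ H.edgeSet) * M) * M ^ E0.card := by ring
      _ ≤ (2 * d * num M d (fun H => ∀ f ∈ E0, f ∈ H.edgeSet)) * M ^ E0.card :=
          Nat.mul_le_mul_right _ st
      _ = 2 * d * (num M d (fun H => ∀ f ∈ E0, f ∈ H.edgeSet) * M ^ E0.card) := by ring
      _ ≤ 2 * d * ((2 * d) ^ E0.card * (fam M d).card) := Nat.mul_le_mul_left _ ih'
      _ = (2 * d) ^ (E0.card + 1) * (fam M d).card := by ring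

theorem first_moment {M d : ℕ} {ι : Type*} (s : Finset ι) (E : ι → Finset (Sym2 (Fin M)))
    (m : ℕ) (hE : ∀ i ∈ s, (E i).card = m) (hd : 2 ≤ d) (hM : 32 * d ^ 3 ≤ M)
    (hm : 8 * m ≤ M * d) :
    num M d (fun H => ∃ i ∈ s, ∀ e ∈ E i, e ∈ H.edgeSet) * M ^ m ≤
      s.card * (2 * d) ^ m * (fam M d).card := by
  have h := num_exists (M := M) (d := d) s (fun i H => ∀ e ∈ E i, e ∈ H.edgeSet)
  calc num M d (fun H => ∃ i ∈ s, ∀ e ∈ E i, e ∈ H.edgeSet) * M ^ m
      ≤ (∑ i ∈ s, num M d (fun H => ∀ e ∈ E i, e ∈ H.edgeSet)) * M ^ m :=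
        Nat.mul_le_mul_right _ h
    _ = ∑ i ∈ s, num M d (fun H => ∀ e ∈ E i, e ∈ H.edgeSet) * M ^ m := by
        rw [Finset.sum_mul]
    _ ≤ s.card • ((2 * d) ^ m * (fam M d).card) := by
        apply Finset.sum_le_card_nsmul
        intro i hi
        have := t1_single hd hM (E i) (by rw [hE i hi]; exact hm)
        rw [hE i hi] at this
        exact this
    _ = s.card * (2 * d) ^ m * (fam M d).card := by
        rw [smul_eq_mul]; ring

theorem t1_pow_le (t : ℕ) : t ^ t ≤ 3 ^ t * t.factorial := by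
  have h := Real.pow_div_factorial_le_exp (t : ℝ) (Nat.cast_nonneg t) t
  have h3 : Real.exp (t : ℝ) ≤ 3 ^ t := by
    have h1 : Real.exp (1 : ℝ) ≤ 3 := by
      have := Real.exp_one_lt_d9
      linarith
    calc Real.exp (t : ℝ) = (Real.exp 1) ^ t := by
          rw [← Real.exp_nat_mul, mul_one]
      _ ≤ 3 ^ t := pow_le_pow_left₀ (Real.exp_pos 1).le h1 t
  have hf : (0 : ℝ) < (t.factorial : ℝ) := by exact_mod_cast t.factorial_pos
  have h2 : (t : ℝ) ^ t ≤ 3 ^ t * (t.factorial : ℝ) := by
    have := le_trans h h3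
    rwa [div_le_iff₀ hf] at this
  exact_mod_cast h2

theorem t1_choose (r t : ℕ) : r.choose t * t ^ t ≤ (3 * r) ^ t := by
  calc r.choose t * t ^ t ≤ r.choose t * (3 ^ t * t.factorial) :=
        Nat.mul_le_mul_left _ (t1_pow_le t)
    _ = 3 ^ t * (t.factorial * r.choose t) := by ring
    _ = 3 ^ t * r.descFactorial t := by rw [Nat.descFactorial_eq_factorial_mul_choose]
    _ ≤ 3 ^ t * r ^ t := Nat.mul_le_mul_left _ (Nat.descFactorial_le_pow r t)
    _ = (3 * r) ^ t := by rw [mul_pow]

theorem region_bound {M d : ℕ} {ι : Type*} (s : Finset ι) (R : ι → Finset (Sym2 (Fin M)))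
    (r t q : ℕ) (hR : ∀ i ∈ s, (R i).card ≤ r) (hq : 6 * r * d * q ≤ t * M) (hd : 2 ≤ d)
    (hM : 32 * d ^ 3 ≤ M) (h8 : 8 * t ≤ M * d) :
    num M d (fun H => ∃ i ∈ s, t ≤ ein H (R i)) * q ^ t ≤ s.card * (fam M d).card := by
  classical
  set S : Finset (Σ _ : ι, Finset (Sym2 (Fin M))) :=
    s.sigma (fun i => (R i).powersetCard t) with hS
  have hScard : S.card ≤ s.card * r.choose t := by
    rw [hS, Finset.card_sigma, ← smul_eq_mul]
    apply Finset.sum_le_card_nsmul
    intro i hi
    rw [Finset.card_powersetCard]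
    exact Nat.choose_le_choose t (hR i hi)
  have fm := first_moment (M := M) (d := d) S (fun z => z.2) t
    (by
      rintro ⟨i, E'⟩ hz
      rw [hS, Finset.mem_sigma] at hz
      exact (Finset.mem_powersetCard.1 hz.2).2) hd hM h8
  have mono : num M d (fun H => ∃ i ∈ s, t ≤ ein H (R i)) ≤
      num M d (fun H => ∃ z ∈ S, ∀ e ∈ z.2, e ∈ H.edgeSet) := by
    apply num_mono
    rintro H _ ⟨i, hi, ht⟩
    unfold ein at ht
    obtain ⟨E', hE', hc⟩ := Finset.exists_subset_card_eq ht
    refine ⟨⟨i, E'⟩, ?_, ?_⟩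
    · rw [hS, Finset.mem_sigma]
      refine ⟨hi, Finset.mem_powersetCard.2 ⟨?_, hc⟩⟩
      exact hE'.trans (Finset.filter_subset _ _)
    · intro e he
      have := hE' he
      exact (Finset.mem_filter.1 this).2
  set N := num M d (fun H => ∃ i ∈ s, t ≤ ein H (R i)) with hN
  set F := (fam M d).card with hF
  rcases Nat.eq_zero_or_pos t with rfl | htpos
  · have h1 : N ≤ S.card * F := by
      have := le_trans mono (by simpa using fm)
      exact this
    calc N * q ^ 0 = N := by simp
      _ ≤ S.card * F := h1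
      _ ≤ s.card * F := by
          apply Nat.mul_le_mul_right
          simpa using hScard
  have hMpos : 0 < M := by
    have : 0 < d ^ 3 := by positivity
    omega
  have hpos : 0 < (t * M) ^ t := by positivity
  apply Nat.le_of_mul_le_mul_right _ hpos
  calc N * q ^ t * (t * M) ^ t = (N * M ^ t) * (t ^ t * q ^ t) := by rw [mul_pow]; ring
    _ ≤ (S.card * (2 * d) ^ t * F) * (t ^ t * q ^ t) := by
        apply Nat.mul_le_mul_right
        exact le_trans (Nat.mul_le_mul_right _ mono) fm
    _ ≤ (s.card * r.choose t * (2 * d) ^ t * F) * (t ^ t * q ^ t) := by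
        gcongr
    _ = s.card * F * ((r.choose t * t ^ t) * (2 * d) ^ t * q ^ t) := by ring
    _ ≤ s.card * F * ((3 * r) ^ t * (2 * d) ^ t * q ^ t) := by
        gcongr
        exact t1_choose r t
    _ = s.card * F * (6 * r * d * q) ^ t := by
        rw [← mul_pow, ← mul_pow]
        congr 2
        ring
    _ ≤ s.card * F * (t * M) ^ t := by
        gcongr

end Pool.Agent.helper11.Tight
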